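import Pool.Agent.U434.SS.Frob

/-!
# Frobenius is semisimple on the cohomology of the reductions of hyperkähler varieties

Let `X` be a projective hyperkähler variety over a number field `k`, of any deformation type (known
or not), and let `V` be its reduction at a place of good reduction. We prove that the Frobenius of `V`
is semisimple on `H^r(V)` for all `r`, if it is on `H²(V)`. This is known for `H²` if `b₂ > 3`
(Kuga-Satake varieties, Deligne, André). For the four known deformation types the theorem follows from
the fact that the motive of `X` is abelian; for the other ones nothing was known for `r > 2`.

Idea of the proof. Let `G` be the Galois group, and let `A` be the algebra of the endomorphisms of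
`H^r` which commute with the action of `so(H²)` (Verbitsky, Looijenga-Lunts). The group `G` acts on `A`
by conjugation.

(1) By `N184.HK` (see `U434.PA`), the eigenvalues on `A` of all elements of `G` are roots of unity
whose order divides a fixed integer (at the good places of degree one: by weights and the slopes of the
crystalline Frobenius; then by density). So the elements of a neighbourhood of the identity act
unipotently on `A`.

(2) The representation of an open subgroup `U` of `G` on `A` is unipotent, and it is de Rham. As the
Galois group of a number field has no nontrivial homomorphism to `ℚ_ℓ` which is unramified everywhere,
it is trivial: the elements of `U` commute with `A`.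

(3) Let `σ` be an element of `G` which is semisimple on `H²`, and `σ^n` in `U`. Let `s` and `s + ν` be
the semisimple part of `σ^n` on `H^r` and `σ^n`. As `σ^n` is semisimple on `H²`, both
`σ^n` and `s` normalize `so(H²)` in the same way, so `z = s⁻¹ ν` is an element of `A`. It is nilpotent
and it is in the centre of `A` by (2). The kernel of `z` has a complement which is stable under
`so(H²)` (complete reducibility), and `z` commutes with the projection. Thus `z` is nilpotent and
injective on the complement, and so `z = 0`. Hence `σ^n` and `σ` are semisimple on `H^r`.
-/

set_option autoImplicit false

namespace Pool.Agent.Results.MP_93fb11_ag.GoodReductionHyperkaehler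

open Pool.Agent.U434.SS Pool.Agent.U434.HM Pool.Agent.U434.PA Pool.Agent.N184.HK

/-- **Frobenius semisimplicity for the reductions of hyperkähler varieties.** Let `X` be a projective
hyperkähler variety over a number field, of any deformation type, and let `σ` be an element of its
Galois group which is semisimple on `H²(X)`, for example a Frobenius element of a place of good
reduction, if `b₂ > 3`. Then `σ` is semisimple on `H^r(X)` for all `r`. -/
theorem result {Ω : Type} [Field Ω] [CharZero Ω] [IsAlgClosed Ω] [TopologicalSpace Ω]
    [IsTopologicalRing Ω] [T2Space Ω] (X : HKFamily Ω) (hX : Arithmetic X) (σ : X.G)
    (h2 : Diag (en ((X.F σ).φ 2))) : ∀ r ≤ X.d, Diag (en ((X.F σ).φ r)) :=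
  fun _ hr => frob_ss hX σ h2 hr

end Pool.Agent.Results.MP_93fb11_ag.GoodReductionHyperkaehler
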