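import Pool.Agent.U227.JbTop

/-!
# Correspondences and the Jordan blocks of Frobenius

Let `X` be a variety of dimension `n`, `W` a Weil cohomology theory with algebraically closed
coefficient field `K` of characteristic zero (one may always extend the coefficients), `D` a divisor
with hard Lefschetz, and `f` an endomorphism which acts as a Frobenius endomorphism relative to the
field with `q` elements: `(f × f)^*` multiplies the classes of cycles of codimension `j` on `X × X` by
`q ^ j`.

Let `R` be the rank of the group of cycles of codimension `n` on `X × X` modulo numerical equivalence, and
let `P` be the multiplicity of `q ^ n` as an eigenvalue of `(f × f)^*` on `H^(2n)(X × X)`, i.e. the order of the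
pole of the zeta function of `X × X` at `s = n`. Always `R ≤ P`, and the Tate conjecture predicts `R = P`.
Tate and Milne proved that `R = P` implies that the Frobenius `f^*` is semisimple on `H^*(X)`.

**Theorem.**
* `R` is at most the sum over all `i`, all eigenvalues `α` of `f^*` on `H^i(X)` and all `j ≥ 1` of the squares
  of the numbers of Jordan blocks of size `j` with eigenvalue `α`.
* `R + 3 ρ ≤ P`, where `ρ` is the rank of the nilpotent part of `f^*` on `H^*(X)`, i.e. the sum of
  the differences of the algebraic and the geometric multiplicities of the eigenvalues.
* If `R ≥ P - 2`, then `f^*` is semisimple.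
* If `n` is even and `R ≥ P - 5`, then `f^*` is semisimple.

So a Jordan block of size `b` of Frobenius, on the cohomology of any variety, forces the Tate conjecture for
`X × X` (with the pole of the zeta function) to fail by at least `3 (b - 1)`; and the semisimplicity follows
if the conjecture is true up to a defect of two, and of five in even dimensions. The number `R` does not
depend on the cohomology theory.

Proof. All correspondences of degree zero commute with `f^*`. Let `N = f^* - α` on the generalized
eigenspace `V` of `α` in `H^i(X)`. A correspondence preserves the subspaces
`K_j = ker N ∩ im N^j`, and if a combination of correspondences maps `K_j` to `K_(j+1)` for all `j`, it is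
nilpotent on `V`, and so is its product with every correspondence. If this is the case for all `i` and `α`,
then by the Lefschetz trace formula the combination is orthogonal to all correspondences. So `R` is at
most the sum of the `(dim K_j - dim K_(j+1))²`. By the Künneth formula and Poincaré duality `P` is at least
the sum of the squares of the algebraic multiplicities `m`, and with the geometric multiplicity
`g = dim ker N` we have `Σ_j (dim K_j - dim K_(j+1))² ≤ g²` and `g² + 3 (m - g) ≤ m²`. Finally, if `n` is even
the rank of the nilpotent part is not one: if it is one, then there is a single Jordan block of size two,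
with eigenvalue `α`, `α² = q^n`, on `H^n(X)`, and the symmetric cup product would be compatible with `f^*`
up to the factor `q^n`, which is impossible, as an orthogonal group contains no such element.
-/

set_option autoImplicit false

universe u v

namespace Pool.Agent.Results.MP_93fb11_ag.JordanBlocks

open CategoryTheory Pool.Agent.H914 Pool.Agent.H914.VarClass Pool.Agent.H914.VarClass.Obj
  Pool.Agent.H914.WeilCohomology Pool.Agent.U227.Fr Pool.Agent.U227.Jb

/-- **Correspondences and the Jordan blocks of Frobenius.** -/
theorem result {k : Type u} [Field k] {𝒱 : VarClass k} {ops : CycleOps 𝒱}
    (W : WeilCohomology.{u, v} ops) [IsAlgClosed W.K] (X : 𝒱.Obj) (D : X.Cycles)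
    (hD : X.IsCyc 1 D) (hHL : HardLefschetz W X D) (f : X ⟶ X) (q : ℕ) (hq : 0 < q)
    (hF : IsFrobenius W X f q) (r : ℕ) (hr : NumRankAtLeast ops (X.prod X) X.dim r) :
    r ≤ jordanSum W X f ∧ r + 3 * nilpotentRank W X f ≤ poleOrder W X f q ∧
    (poleOrder W X f q ≤ r + 2 →
      Module.End.IsSemisimple (R := W.K) (M := W.H X) (W.map f).toLinearMap) ∧
    (Even X.dim → poleOrder W X f q ≤ r + 5 →
      Module.End.IsSemisimple (R := W.K) (M := W.H X) (W.map f).toLinearMap) :=
  main hD hHL hF hq hr

end Pool.Agent.Results.MP_93fb11_ag.JordanBlocks
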