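import Mathlib
import Pool.Agent.U282.PW.Pow

/-!
# The law of the Jordan blocks of Frobenius on the powers of a variety

Let `X` be a smooth projective variety of dimension `d` over the field with `q` elements, and let
`H` be the total `l`-adic cohomology of `X`, with coefficients in an algebraic closure `K` of the
`l`-adic numbers; `b = dim H`. By the Künneth formula the total cohomology of `X^n` is the `n`-th
tensor power of `H`, with Frobenius the tensor power of the Frobenius `F` of `X`.

Let `N` be the nilpotent part of `F`, so that `δ k := b - dim (⨆ l, ker (F - l)^k)` is the rank of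
`N^k`, and let `S = ∑ k, k * rk N^k`. Frobenius is semisimple on `H` if and only if `N = 0`; if not,
then `S ≥ 1`.

Let `t n` be the dimension of the space of all Tate classes on `X^n`, that is, the sum over `r` of
the dimensions of the eigenspaces of Frobenius for the eigenvalues `q^r`; let `m n` be the sum of the
multiplicities of the eigenvalues `q^r`, that is (Deligne) the sum over `r` of the orders of the
poles of the zeta function of `X^n` at `s = r`; and let `β n k` be the number of the Jordan blocks of
size more than `k` of Frobenius on the cohomology of `X^n` for the eigenvalues `q^r`, so that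
`β n 0 = t n`.

*Theorem.*

1. If `F` is semisimple on `H` then `t n = m n` for all `n` (and `β n k = 0` for `k ≥ 1`).
2. If `F` is not semisimple on `H`, then, as `n → ∞`,
   `t n / m n ~ √(b / (π S n))`; and for all `z ≥ 0` and all `k_n` with `k_n / √n → z`,
   `√n * β n k_n / m n → √(b / (π S)) * exp (- z ^ 2 * b / (4 S))`. In particular the
   proportion of the Tate classes on `X^n` which belong to a Jordan block of size more than `z √n`
   tends to `exp (- z ^ 2 b / (4 S))` (Rayleigh's law).
3. So `F` is semisimple on `H` if for one `C > √(b / π)` and infinitely many `n` the span of the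
   algebraic cycles on `X^n` (or the space of the Tate classes of `X^n`) has dimension at least
   `C * m n / √n`. (By 1 the Tate classes satisfy this for all large `n` if `F` is semisimple.)

More generally `L` is any subgroup of the multiplicative group of `K` which contains `q`, and `q^r` is
replaced by the elements of `L`. For the subgroup of the elements with a power in `q^ℤ` these are the
Tate classes defined over finite extensions of the base field; for the group of all nonzero elements
`t n` is the number of all Jordan blocks of Frobenius on the cohomology of `X^n`, and `m n = b ^ n`.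
-/

set_option autoImplicit false

open Module Filter

universe u v

namespace Pool.Agent.Results.MP_93fb11_ag.PowerLaw

open Pool.Agent.U282.PW

variable {K : Type u} [Field K] [CharZero K] [IsAlgClosed K] {q d : ℕ}

/-- **The law of the Jordan blocks of Frobenius on the powers of a variety**: `L` is a subgroup of
`Kˣ` which contains `q`, for example the group of the powers of `q`. -/
theorem result (X : SmoothPowers.{u, v} K q d) (hq : q ≠ 0) (L : Subgroup Kˣ)
    (hL : qu K q hq ∈ L) :
    (∀ n, eigDim (X.Fr n) (uset L) = blocks (X.Fr n) (uset L) 0) ∧
    (SS (X.Fr 1) → ∀ n k, blocks (X.Fr n) (uset L) k =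
      if k = 0 then mult (X.Fr n) (uset L) else 0) ∧
    (¬ SS (X.Fr 1) → 1 ≤ size (X.Fr 1) ∧ ∀ (kk : ℕ → ℕ) (z : ℝ),
      Tendsto (fun n : ℕ => (kk n : ℝ) / √n) atTop (nhds z) →
      Tendsto (fun n : ℕ => √n *
        ((blocks (X.Fr n) (uset L) (kk n) : ℝ) / (mult (X.Fr n) (uset L) : ℝ))) atTop
        (nhds (√(finrank K (X.H 1) / (Real.pi * size (X.Fr 1))) *
          Real.exp (-(z ^ 2 * finrank K (X.H 1) / (4 * size (X.Fr 1)))))) ∧
      Tendsto (fun n : ℕ =>
        (blocks (X.Fr n) (uset L) (kk n) : ℝ) / (blocks (X.Fr n) (uset L) 0 : ℝ)) atTop
        (nhds (Real.exp (-(z ^ 2 * finrank K (X.H 1) / (4 * size (X.Fr 1))))))) ∧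
    (∀ (a : ℕ → ℕ) (C : ℝ), (∀ n, a n ≤ eigDim (X.Fr n) (uset L)) →
      √(finrank K (X.H 1) / Real.pi) < C →
      (∃ᶠ n in atTop, C * (mult (X.Fr n) (uset L) : ℝ) ≤ √n * (a n : ℝ)) →
      SS (X.Fr 1)) :=
  ⟨fun _ => eigDim_eq_blocks _ _, smooth_law X hq L hL⟩

end Pool.Agent.Results.MP_93fb11_ag.PowerLaw
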